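import Pool.Agent.H73.PL.Num

/-!
# The peeling lemma for all points at once
-/

set_option autoImplicit false

namespace Pool.Agent.H73.PL

open Finset Pool.Agent.H46.SR

variable {E : ℕ} {V R : Type} [Fintype V] [Fintype R] [DecidableEq R]

/-- The rows can be given to the bundles such that every bundle loses at most `m` rows. -/
def Peelable (bun : Fin E → V → Option ℕ) (J : ℕ → ℕ) (m : ℕ) (β : Fin E → R → V) : Prop :=
  ∃ t : R → Option (Fin E × ℕ), ∀ b ∈ Uni E J, ∀ A : Finset R,
    (∀ ρ ∈ A, Mem bun b (fun e => β e ρ) ∧ t ρ ≠ some b) → A.card ≤ m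

theorem peel_all [Nonempty V] {Xc Pt : Type} [Fintype Xc] [DecidableEq Xc] [Fintype Pt]
    (ch : Pt → Fin E → Xc) (hinj : ∀ x, Function.Injective (ch x))
    (bun : Fin E → V → Option ℕ) {κ J : ℕ → ℕ} (h0 : 8 ≤ κ 0) (hs : ∀ e, κ (e + 1) = κ e ^ 2)
    (hJ : ∀ e, J e * κ e ^ 64 ≤ 2 * Fintype.card V)
    (hc : ∀ (e : Fin E) (j : ℕ), ∀ A : Finset V, (∀ u ∈ A, bun e u = some j) → A.card ≤ κ e ^ 48)
    (hR : Fintype.card R ≤ Fintype.card V) :
    av (fun β : Xc → R → V => indi (¬ ∀ x : Pt, Peelable bun J 160 (fun e => β (ch x e)))) ≤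
      Fintype.card Pt * (2 / (Fintype.card V : ℝ) ^ 3) := by
  classical
  have h1 : ∀ β : Xc → R → V,
      indi (¬ ∀ x : Pt, Peelable bun J 160 (fun e => β (ch x e))) ≤
      ∑ x : Pt, indi (¬ Peelable bun J 160 (fun e => β (ch x e))) := by
    intro β
    by_cases h : ∀ x : Pt, Peelable bun J 160 (fun e => β (ch x e))
    · have : indi (¬ ∀ x : Pt, Peelable bun J 160 (fun e => β (ch x e))) = 0 := by
        unfold indi; rw [if_neg (not_not.mpr h)]
      rw [this]
      exact Finset.sum_nonneg fun x _ => indi_nonneg _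
    · refine (indi_le_one _).trans ?_
      push Not at h
      obtain ⟨x, hx⟩ := h
      have h2 : (1:ℝ) = indi (¬ Peelable bun J 160 (fun e => β (ch x e))) := by
        unfold indi; rw [if_pos hx]
      rw [h2]
      exact Finset.single_le_sum
        (f := fun x : Pt => indi (¬ Peelable bun J 160 (fun e => β (ch x e))))
        (fun x _ => indi_nonneg _) (Finset.mem_univ x)
  refine (av_mono h1).trans ?_
  rw [av_sum]
  have hV : 0 < Fintype.card V := Fintype.card_pos
  have hκpos : ∀ e, 0 < κ e := fun e => lt_of_lt_of_le (by positivity) (kappa_ge h0 hs e)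
  have h2 : ∀ x ∈ (univ : Finset Pt),
      av (fun β : Xc → R → V => indi (¬ Peelable bun J 160 (fun e => β (ch x e)))) ≤
        2 / (Fintype.card V : ℝ) ^ 3 := by
    intro x _
    have h3 := av_comp_inj (ch x) (hinj x)
      (fun β : Fin E → R → V => indi (¬ Peelable bun J 160 β))
    rw [h3]
    refine peel bun J (fun e => κ e ^ 48) ?_ ?_ hc hR 80 (sum_J_le h0 hs hJ) ?_
    · intro a b hab
      exact Nat.pow_le_pow_left (kappa_mono h0 hs hab) 48
    · intro e
      exact Nat.one_le_pow _ _ (hκpos e)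
    · intro f hf1 hf2
      have hfM : f ≤ Fintype.card V := by
        have := sum_J_le (E := E) h0 hs hJ
        omega
      exact numeric h0 hs hV hJ f hf1 hfM
  refine (Finset.sum_le_sum h2).trans (le_of_eq ?_)
  rw [Finset.sum_const, Finset.card_univ, nsmul_eq_mul]

end Pool.Agent.H73.PL
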