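import Mathlib

/-!
# Degenerate families of sets can be made disjoint at a small price

`rows b` (`b ∈ F`) are finite sets. If every nonempty subfamily `G` has at most `q |G|` repeated
incidences, then every point can be given to one set such that every set loses at most `2 q`
points.
-/

set_option autoImplicit false

namespace Pool.Agent.H73.PL

open Finset

variable {ι R : Type*} [DecidableEq ι] [DecidableEq R]

/-- number of members of the family containing `ρ` -/
def mult (rows : ι → Finset R) (F : Finset ι) (ρ : R) : ℕ := (F.filter fun b => ρ ∈ rows b).card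

/-- the repeated incidences -/
def exc [Fintype R] (rows : ι → Finset R) (F : Finset ι) : ℕ := ∑ ρ, (mult rows F ρ - 1)

/-- the points of `b` which belong to another member of `F` -/
def shared (rows : ι → Finset R) (F : Finset ι) (b : ι) : Finset R :=
  (rows b).filter fun ρ => ∃ b' ∈ F, b' ≠ b ∧ ρ ∈ rows b'

theorem sum_shared_le [Fintype R] (rows : ι → Finset R) (F : Finset ι) :
    ∑ b ∈ F, (shared rows F b).card ≤ 2 * exc rows F := by
  have h1 : ∀ b, (shared rows F b).card = ∑ ρ, if ρ ∈ shared rows F b then 1 else 0 := by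
    intro b
    rw [Finset.sum_ite_mem, Finset.univ_inter, Finset.sum_const, smul_eq_mul, mul_one]
  rw [Finset.sum_congr rfl fun b _ => h1 b, Finset.sum_comm, exc, Finset.mul_sum]
  apply Finset.sum_le_sum
  intro ρ _
  rw [← Finset.card_filter]
  set A := F.filter fun b => ρ ∈ shared rows F b with hA
  have hAK : A ⊆ F.filter fun b => ρ ∈ rows b := by
    intro b hb
    rw [hA, Finset.mem_filter] at hb
    rw [Finset.mem_filter]
    exact ⟨hb.1, (Finset.mem_filter.mp hb.2).1⟩
  have hle : A.card ≤ mult rows F ρ := Finset.card_le_card hAK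
  rcases A.eq_empty_or_nonempty with h0 | ⟨b, hb⟩
  · rw [h0]; simp
  · rw [hA, Finset.mem_filter] at hb
    obtain ⟨hbF, hb2⟩ := hb
    rw [shared, Finset.mem_filter] at hb2
    obtain ⟨hρ, b', hb', hne, hρ'⟩ := hb2
    have h2 : 1 < mult rows F ρ := by
      rw [mult, Finset.one_lt_card]
      exact ⟨b, Finset.mem_filter.mpr ⟨hbF, hρ⟩, b', Finset.mem_filter.mpr ⟨hb', hρ'⟩, hne.symm⟩
    omega

theorem assign [Fintype R] (rows : ι → Finset R) (q : ℕ) (F : Finset ι)
    (h : ∀ G : Finset ι, G ⊆ F → G.Nonempty → exc rows G ≤ q * G.card) :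
    ∃ t : R → Option ι, ∀ b ∈ F, ((rows b).filter fun ρ => t ρ ≠ some b).card ≤ 2 * q := by
  induction F using Finset.strongInduction with
  | _ F ih =>
    rcases F.eq_empty_or_nonempty with h0 | hne
    · exact ⟨fun _ => none, by rw [h0]; simp⟩
    · have hs : ∃ b ∈ F, (shared rows F b).card ≤ 2 * q := by
        by_contra hcon
        push Not at hcon
        have h1 : ∑ _b ∈ F, 2 * q < ∑ b ∈ F, (shared rows F b).card :=
          Finset.sum_lt_sum_of_nonempty hne hcon
        rw [Finset.sum_const, smul_eq_mul] at h1
        have h2 := sum_shared_le rows F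
        have h3 := h F (Finset.Subset.refl _) hne
        have h4 : F.card * (2 * q) = 2 * (q * F.card) := by ring
        omega
      obtain ⟨b, hbF, hb⟩ := hs
      obtain ⟨t, ht⟩ := ih (F.erase b) (Finset.erase_ssubset hbF)
        (fun G hG hGne => h G (hG.trans (Finset.erase_subset _ _)) hGne)
      refine ⟨fun ρ => if ρ ∈ rows b ∧ ρ ∉ shared rows F b then some b else t ρ, ?_⟩
      intro b' hb'
      by_cases hbb : b' = b
      · subst hbb
        refine (Finset.card_le_card ?_).trans hb
        intro ρ hρ
        rw [Finset.mem_filter] at hρ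
        by_contra hns
        exact hρ.2 (if_pos ⟨hρ.1, hns⟩)
      · refine (Finset.card_le_card ?_).trans (ht b' (Finset.mem_erase.mpr ⟨hbb, hb'⟩))
        intro ρ hρ
        rw [Finset.mem_filter] at hρ ⊢
        refine ⟨hρ.1, ?_⟩
        have hn : ¬ (ρ ∈ rows b ∧ ρ ∉ shared rows F b) := by
          rintro ⟨h1, h2⟩
          apply h2
          rw [shared, Finset.mem_filter]
          exact ⟨h1, b', hb', hbb, hρ.1⟩
        intro h5
        exact hρ.2 ((if_neg hn).trans h5)

end Pool.Agent.H73.PL
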