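import Pool.Agent.H46.SR.Av
import Pool.Agent.H73.PL.Degen

/-!
# Exponential moment of the repeated incidences of a family of bundles

Levels `Fin E`, values `V`. `bun e u = some j` says that the value `u` belongs to the bundle
`(e, j)`. A point is a vector `v : Fin E → V`; it belongs to the bundle `(e, j)` if
`bun e (v e) = some j` and the value at the next level belongs to no bundle.
-/

set_option autoImplicit false

namespace Pool.Agent.H73.PL

open Finset Pool.Agent.H46.SR

variable {E : ℕ} {V : Type} [Fintype V]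

/-- the value at the next level belongs to no bundle -/
def NN (bun : Fin E → V → Option ℕ) (e : Fin E) (v : Fin E → V) : Prop :=
  ∀ e' : Fin E, e'.1 = e.1 + 1 → bun e' (v e') = none

/-- membership of the point `v` in the bundle `b` -/
def Mem (bun : Fin E → V → Option ℕ) (b : Fin E × ℕ) (v : Fin E → V) : Prop :=
  bun b.1 (v b.1) = some b.2 ∧ NN bun b.1 v

open Classical in
/-- number of bundles of the family `F` containing `v` -/
noncomputable def mu (bun : Fin E → V → Option ℕ) (F : Finset (Fin E × ℕ)) (v : Fin E → V) : ℕ :=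
  (F.filter fun b => Mem bun b v).card

open Classical in
/-- the value `u` belongs to a bundle of `F` of level `e` -/
noncomputable def Bi (bun : Fin E → V → Option ℕ) (F : Finset (Fin E × ℕ)) (e : Fin E) (u : V) : ℝ :=
  if ∃ j, bun e u = some j ∧ (e, j) ∈ F then 1 else 0

theorem Bi_nonneg (bun : Fin E → V → Option ℕ) (F : Finset (Fin E × ℕ)) (e : Fin E) (u : V) :
    0 ≤ Bi bun F e u := by
  unfold Bi; split_ifs <;> norm_num

/-- the factors -/
noncomputable def gf (bun : Fin E → V → Option ℕ) (F : Finset (Fin E × ℕ)) (z : ℝ)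
    (e' e i : Fin E) (u : V) : ℝ :=
  if i = e' then Bi bun F i u else if i = e then Bi bun F i u
  else if e < i then 1 + z * Bi bun F i u else 1

theorem gf_nonneg (bun : Fin E → V → Option ℕ) (F : Finset (Fin E × ℕ)) {z : ℝ} (hz : 0 ≤ z)
    (e' e i : Fin E) (u : V) : 0 ≤ gf bun F z e' e i u := by
  have := Bi_nonneg bun F i u
  unfold gf
  split_ifs
  · exact this
  · exact this
  · positivity
  · norm_num

/-- the pairs of levels at distance at least two -/
def prs (E : ℕ) : Finset (Fin E × Fin E) := univ.filter fun p => p.1.1 + 2 ≤ p.2.1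

theorem pointwise (bun : Fin E → V → Option ℕ) (F : Finset (Fin E × ℕ)) {z : ℝ} (hz : 1 ≤ z)
    (v : Fin E → V) :
    z ^ (mu bun F v - 1) ≤ 1 + ∑ p ∈ prs E, z * ∏ i, gf bun F z p.1 p.2 i (v i) := by
  classical
  have hz0 : 0 ≤ z := by linarith
  have hnn : ∀ p ∈ prs E, 0 ≤ z * ∏ i, gf bun F z p.1 p.2 i (v i) := fun p _ =>
    mul_nonneg hz0 (Finset.prod_nonneg fun i _ => gf_nonneg bun F hz0 _ _ _ _)
  set K := (F.filter fun b => Mem bun b v).image Prod.fst with hK
  have hcard : K.card = mu bun F v := by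
    rw [hK, mu]
    apply Finset.card_image_of_injOn
    intro b hb b' hb' hbb
    simp only [Finset.coe_filter, Set.mem_ofPred_eq] at hb hb'
    have h1 := hb.2.1
    have h2 := hb'.2.1
    have h3 : b.1 = b'.1 := hbb
    rw [h3, h2] at h1
    exact Prod.ext h3 (Option.some_injective _ h1.symm)
  have hKB : ∀ e ∈ K, Bi bun F e (v e) = 1 ∧ NN bun e v := by
    intro e he
    rw [hK, Finset.mem_image] at he
    obtain ⟨b, hb, rfl⟩ := he
    rw [Finset.mem_filter] at hb
    refine ⟨?_, hb.2.2⟩
    unfold Bi
    rw [if_pos ⟨b.2, hb.2.1, hb.1⟩]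
  rw [← hcard]
  by_cases h1 : K.card ≤ 1
  · have : K.card - 1 = 0 := by omega
    rw [this, pow_zero]
    linarith [Finset.sum_nonneg hnn]
  push Not at h1
  have hKne : K.Nonempty := Finset.card_pos.mp (by omega)
  set e1 := K.min' hKne with he1
  have he1K : e1 ∈ K := Finset.min'_mem _ _
  set K' := K.erase e1 with hK'
  have hK'c : K'.card = K.card - 1 := Finset.card_erase_of_mem he1K
  have hK'ne : K'.Nonempty := Finset.card_pos.mp (by omega)
  set e2 := K'.min' hK'ne with he2
  have he2K' : e2 ∈ K' := Finset.min'_mem _ _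
  have he2K : e2 ∈ K := Finset.mem_of_mem_erase he2K'
  have hne : e2 ≠ e1 := (Finset.mem_erase.mp he2K').1
  have hlt : e1 < e2 := lt_of_le_of_ne (Finset.min'_le _ _ he2K) hne.symm
  have hlt' : e1.1 < e2.1 := hlt
  have h2 : e1.1 + 2 ≤ e2.1 := by
    by_contra hcon
    have h3 : e2.1 = e1.1 + 1 := by omega
    have h4 := (hKB e1 he1K).2 e2 h3
    have h5 := (hKB e2 he2K).1
    unfold Bi at h5
    by_cases h6 : ∃ j, bun e2 (v e2) = some j ∧ (e2, j) ∈ F
    · obtain ⟨j, hj, -⟩ := h6
      rw [h4] at hj
      exact absurd hj (by simp)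
    · rw [if_neg h6] at h5
      norm_num at h5
  set K'' := K'.erase e2 with hK''
  have hK''c : K''.card = K.card - 2 := by
    rw [hK'', Finset.card_erase_of_mem he2K', hK'c]; omega
  have hp : (e1, e2) ∈ prs E := by
    rw [prs, Finset.mem_filter]
    exact ⟨Finset.mem_univ _, h2⟩
  have hprod : z ^ K''.card ≤ ∏ i, gf bun F z e1 e2 i (v i) := by
    have h7 : z ^ K''.card = ∏ i : Fin E, if i ∈ K'' then z else 1 := by
      rw [Finset.prod_ite_mem, Finset.univ_inter, Finset.prod_const]
    rw [h7]
    apply Finset.prod_le_prod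
    · intro i _
      split_ifs <;> linarith
    · intro i _
      unfold gf
      by_cases hi : i ∈ K''
      · rw [if_pos hi]
        have hi2 : i ≠ e2 := (Finset.mem_erase.mp hi).1
        have hi' : i ∈ K' := (Finset.mem_erase.mp hi).2
        have hi1 : i ≠ e1 := (Finset.mem_erase.mp hi').1
        have hiK : i ∈ K := (Finset.mem_erase.mp hi').2
        have hlt2 : e2 < i := lt_of_le_of_ne (Finset.min'_le _ _ hi') hi2.symm
        rw [if_neg hi1, if_neg hi2, if_pos hlt2, (hKB i hiK).1]
        linarith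
      · rw [if_neg hi]
        have hb := Bi_nonneg bun F i (v i)
        split_ifs with g1 g2 g3
        · rw [g1, (hKB e1 he1K).1]
        · rw [g2, (hKB e2 he2K).1]
        · nlinarith
        · exact le_refl _
  calc z ^ (K.card - 1) = z * z ^ K''.card := by
        rw [hK''c, ← pow_succ']
        congr 1
        omega
    _ ≤ z * ∏ i, gf bun F z e1 e2 i (v i) := mul_le_mul_of_nonneg_left hprod hz0
    _ ≤ ∑ p ∈ prs E, z * ∏ i, gf bun F z p.1 p.2 i (v i) :=
        Finset.single_le_sum (f := fun p : Fin E × Fin E =>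
          z * ∏ i, gf bun F z p.1 p.2 i (v i)) hnn hp
    _ ≤ _ := by linarith

/-- the probability of the values belonging to `F` at level `e` -/
noncomputable def pa (bun : Fin E → V → Option ℕ) (F : Finset (Fin E × ℕ)) (e : Fin E) : ℝ :=
  av (Bi bun F e)

theorem pa_nonneg (bun : Fin E → V → Option ℕ) (F : Finset (Fin E × ℕ)) (e : Fin E) :
    0 ≤ pa bun F e := av_nonneg fun u => Bi_nonneg bun F e u

theorem av_gf [Nonempty V] (bun : Fin E → V → Option ℕ) (F : Finset (Fin E × ℕ)) (z : ℝ)
    (e' e i : Fin E) :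
    av (gf bun F z e' e i) = if i = e' then pa bun F i else if i = e then pa bun F i
      else if e < i then 1 + z * pa bun F i else 1 := by
  unfold gf
  split_ifs
  · rfl
  · rfl
  · rw [av_add, av_mul_left, av_const]; rfl
  · exact av_const 1

theorem av_prod_gf_le [Nonempty V] (bun : Fin E → V → Option ℕ) (F : Finset (Fin E × ℕ)) {z : ℝ}
    (hz : 0 ≤ z) {e' e : Fin E} (h : e'.1 + 2 ≤ e.1) :
    av (fun v : Fin E → V => ∏ i, gf bun F z e' e i (v i)) ≤
      pa bun F e' * pa bun F e *
        Real.exp (∑ i : Fin E, if 2 ≤ i.1 then z * pa bun F i else 0) := by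
  rw [av_pi_prod, Real.exp_sum]
  have hne : e' ≠ e := by
    intro h1; rw [h1] at h; omega
  have h1 : pa bun F e' = ∏ i : Fin E, if i = e' then pa bun F i else 1 := by
    rw [Finset.prod_ite_eq' univ e' (fun i => pa bun F i)]; simp
  have h2 : pa bun F e = ∏ i : Fin E, if i = e then pa bun F i else 1 := by
    rw [Finset.prod_ite_eq' univ e (fun i => pa bun F i)]; simp
  conv_rhs => rw [h1, h2, ← Finset.prod_mul_distrib, ← Finset.prod_mul_distrib]
  apply Finset.prod_le_prod
  · intro i _
    exact av_nonneg fun u => gf_nonneg bun F hz _ _ _ _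
  · intro i _
    rw [av_gf]
    have hp := pa_nonneg bun F i
    have hexp : (1:ℝ) ≤ Real.exp (if 2 ≤ i.1 then z * pa bun F i else 0) := by
      apply Real.one_le_exp
      split_ifs
      · positivity
      · exact le_refl _
    by_cases g1 : i = e'
    · rw [if_pos g1, if_pos g1, if_neg (by rw [g1]; exact hne), mul_one]
      exact le_mul_of_one_le_right hp hexp
    · rw [if_neg g1, if_neg g1, one_mul]
      by_cases g2 : i = e
      · rw [if_pos g2, if_pos g2]
        exact le_mul_of_one_le_right hp hexp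
      · rw [if_neg g2, if_neg g2, one_mul]
        split_ifs with g3 g4 g4
        · have := Real.add_one_le_exp (z * pa bun F i)
          linarith
        · exfalso
          have : e.1 < i.1 := g3
          omega
        · apply Real.one_le_exp
          positivity
        · rw [Real.exp_zero]

/-- one row -/
theorem row_moment [Nonempty V] (bun : Fin E → V → Option ℕ) (F : Finset (Fin E × ℕ)) {z : ℝ}
    (hz : 1 ≤ z) {D : ℝ}
    (h1 : ∑ i : Fin E, (if 2 ≤ i.1 then z * pa bun F i else 0) ≤ 1 / 2)
    (h2 : ∑ p ∈ prs E, z * (pa bun F p.1 * pa bun F p.2) ≤ D) :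
    av (fun v : Fin E → V => z ^ (mu bun F v - 1)) ≤ Real.exp (2 * D) := by
  have hz0 : 0 ≤ z := by linarith
  have hexp : Real.exp (∑ i : Fin E, if 2 ≤ i.1 then z * pa bun F i else 0) ≤ 2 := by
    refine (Real.exp_le_exp.mpr h1).trans ?_
    have h3 : Real.exp (1 / 2) ^ 2 ≤ 2 ^ 2 := by
      rw [← Real.exp_nat_mul]
      have : ((2 : ℕ) : ℝ) * (1 / 2) = 1 := by norm_num
      rw [this]
      linarith [Real.exp_one_lt_d9]
    exact le_of_sq_le_sq h3 (by norm_num)
  calc av (fun v : Fin E → V => z ^ (mu bun F v - 1))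
      ≤ av (fun v : Fin E → V => 1 + ∑ p ∈ prs E, z * ∏ i, gf bun F z p.1 p.2 i (v i)) :=
        av_mono fun v => pointwise bun F hz v
    _ = 1 + ∑ p ∈ prs E, z * av (fun v : Fin E → V => ∏ i, gf bun F z p.1 p.2 i (v i)) := by
        rw [av_add, av_const, av_sum]
        congr 1
        exact Finset.sum_congr rfl fun p _ => av_mul_left _ _
    _ ≤ 1 + ∑ p ∈ prs E, 2 * (z * (pa bun F p.1 * pa bun F p.2)) := by
        have : ∀ p ∈ prs E, z * av (fun v : Fin E → V => ∏ i, gf bun F z p.1 p.2 i (v i))
            ≤ 2 * (z * (pa bun F p.1 * pa bun F p.2)) := by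
          intro p hp
          rw [prs, Finset.mem_filter] at hp
          have h4 := av_prod_gf_le bun F hz0 hp.2
          have h5 : 0 ≤ pa bun F p.1 * pa bun F p.2 :=
            mul_nonneg (pa_nonneg _ _ _) (pa_nonneg _ _ _)
          have h6 := mul_le_mul_of_nonneg_left hexp h5
          have h7 := mul_le_mul_of_nonneg_left (h4.trans h6) hz0
          linarith
        linarith [Finset.sum_le_sum this]
    _ ≤ 1 + 2 * D := by
        rw [← Finset.mul_sum]
        linarith
    _ ≤ Real.exp (2 * D) := by linarith [Real.add_one_le_exp (2 * D)]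

end Pool.Agent.H73.PL
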