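import Pool.Agent.H73.PL.Peel

/-!
# The numeric hypothesis of the peeling lemma
-/

set_option autoImplicit false

namespace Pool.Agent.H73.PL

open Finset

/-- `κ` at least doubles its binary logarithm at each step. -/
theorem kappa_ge {κ : ℕ → ℕ} (h0 : 8 ≤ κ 0) (hs : ∀ e, κ (e + 1) = κ e ^ 2) (e : ℕ) :
    2 ^ (3 * 2 ^ e) ≤ κ e := by
  induction e with
  | zero => simpa using h0
  | succ e ih =>
    rw [hs, pow_succ 2 e, ← mul_assoc, pow_mul]
    exact Nat.pow_le_pow_left ih 2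

theorem kappa_sixteen {κ : ℕ → ℕ} (h0 : 8 ≤ κ 0) (hs : ∀ e, κ (e + 1) = κ e ^ 2) (e : ℕ) :
    2 ^ (39 + 20 * e) ≤ κ e ^ 16 := by
  calc 2 ^ (39 + 20 * e) ≤ 2 ^ (3 * 2 ^ e * 16) := by
        apply Nat.pow_le_pow_right (by norm_num)
        have : e + 1 ≤ 2 ^ e := Nat.lt_two_pow_self
        omega
    _ = (2 ^ (3 * 2 ^ e)) ^ 16 := by rw [pow_mul]
    _ ≤ _ := Nat.pow_le_pow_left (kappa_ge h0 hs e) 16

theorem kappa_mono {κ : ℕ → ℕ} (h0 : 8 ≤ κ 0) (hs : ∀ e, κ (e + 1) = κ e ^ 2) : Monotone κ := by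
  apply monotone_nat_of_le_succ
  intro e
  rw [hs, sq]
  have : 0 < κ e := lt_of_lt_of_le (by positivity) (kappa_ge h0 hs e)
  exact Nat.le_mul_of_pos_left _ this

/-- The numeric hypothesis of `peel` for `c e = κ_e ^ 48`, `J e ≤ 2 M / κ_e ^ 64`, `q = 80`. -/
theorem numeric {E : ℕ} {κ J : ℕ → ℕ} (h0 : 8 ≤ κ 0) (hs : ∀ e, κ (e + 1) = κ e ^ 2)
    {M : ℕ} (hM : 0 < M) (hJ : ∀ e, J e * κ e ^ 64 ≤ 2 * M) (f : ℕ) (hf1 : 1 ≤ f) (hfM : f ≤ M) :
    ∃ z : ℝ, 1 ≤ z ∧ ((M : ℝ) / f) ^ 4 ≤ z ^ 80 ∧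
      ∑ i : Fin E, (if 2 ≤ i.1 then
        z * ((min (J i) f : ℕ) * ((κ i ^ 48 : ℕ) : ℝ) / M) * ((κ (i - 2) ^ 48 : ℕ) : ℝ) else 0)
        ≤ 1 / 4 := by
  have hf0 : (0:ℝ) < f := by exact_mod_cast hf1
  have hM0 : (0:ℝ) < M := by exact_mod_cast hM
  have hMf : (1:ℝ) ≤ (M : ℝ) / f := by
    rw [le_div_iff₀ hf0, one_mul]; exact_mod_cast hfM
  set z : ℝ := ((M : ℝ) / f) ^ ((1:ℝ) / 20) with hz
  have hz20 : z ^ 20 = (M : ℝ) / f := by
    rw [hz, ← Real.rpow_natCast, ← Real.rpow_mul (by positivity)]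
    norm_num
  have hz1 : 1 ≤ z := by
    rw [hz]
    exact Real.one_le_rpow hMf (by norm_num)
  refine ⟨z, hz1, ?_, ?_⟩
  · rw [show (80:ℕ) = 20 * 4 from rfl, pow_mul, hz20]
  · have key : ∀ i : Fin E, (if 2 ≤ i.1 then
        z * ((min (J i) f : ℕ) * ((κ i ^ 48 : ℕ) : ℝ) / M) * ((κ (i - 2) ^ 48 : ℕ) : ℝ) else 0)
        ≤ (if 2 ≤ i.1 then (1 / 2 : ℝ) ^ (i.1 + 1) else 0) := by
      intro i
      by_cases hi : 2 ≤ i.1
      · rw [if_pos hi, if_pos hi]
        obtain ⟨n, hn⟩ := Nat.exists_eq_add_of_le' hi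
        have hκ : κ (i.1 - 2) ^ 48 = κ i.1 ^ 12 := by
          rw [hn, Nat.add_sub_cancel, hs, hs, ← pow_mul, ← pow_mul]
        set k : ℝ := (κ i.1 : ℝ) with hk
        have hk0 : 0 < k := by
          rw [hk]
          exact_mod_cast lt_of_lt_of_le (by positivity) (kappa_ge h0 hs i.1)
        set m : ℝ := ((min (J i) f : ℕ) : ℝ) with hm
        have hm0 : 0 ≤ m := by rw [hm]; positivity
        have hmJ : m * k ^ 64 ≤ 2 * M := by
          have h1 : m ≤ (J i : ℝ) := by rw [hm]; exact_mod_cast min_le_left _ _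
          have h2 : (J i : ℝ) * k ^ 64 ≤ 2 * M := by rw [hk]; exact_mod_cast hJ i
          exact (mul_le_mul_of_nonneg_right h1 (by positivity)).trans h2
        have hmf : m ≤ f := by rw [hm]; exact_mod_cast min_le_right _ _
        have e1 : z * (m * ((κ i ^ 48 : ℕ) : ℝ) / M) * ((κ (i - 2) ^ 48 : ℕ) : ℝ) =
            z * (m * k ^ 60 / M) := by
          rw [hκ, hk]; push_cast; ring
        rw [e1]
        have hx0 : 0 ≤ z * (m * k ^ 60 / M) := by positivity
        have h16 : (2:ℝ) ^ (39 + 20 * i.1) ≤ k ^ 16 := by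
          rw [hk]; exact_mod_cast kappa_sixteen h0 hs i.1
        have hx : (z * (m * k ^ 60 / M)) ^ 20 ≤ ((1 / 2 : ℝ) ^ (i.1 + 1)) ^ 20 := by
          have a1 : (m * k ^ 60 / M) ^ 19 ≤ (2 / k ^ 4) ^ 19 := by
            apply pow_le_pow_left₀ (by positivity)
            rw [div_le_div_iff₀ hM0 (by positivity)]
            have a3 : m * k ^ 60 * k ^ 4 = m * k ^ 64 := by ring
            rw [a3]
            exact hmJ
          have a2 : m * k ^ 60 / M ≤ f * k ^ 60 / M :=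
            div_le_div_of_nonneg_right (mul_le_mul_of_nonneg_right hmf (by positivity)) hM0.le
          calc (z * (m * k ^ 60 / M)) ^ 20 = (M : ℝ) / f * ((m * k ^ 60 / M) ^ 19 * (m * k ^ 60 / M)) := by
                rw [mul_pow, hz20, pow_succ]
            _ ≤ (M : ℝ) / f * ((2 / k ^ 4) ^ 19 * (f * k ^ 60 / M)) := by
                apply mul_le_mul_of_nonneg_left _ (by positivity)
                exact mul_le_mul a1 a2 (by positivity) (by positivity)
            _ = 2 ^ 19 / k ^ 16 := by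
                field_simp
            _ ≤ 2 ^ 19 / 2 ^ (39 + 20 * i.1) :=
                div_le_div_of_nonneg_left (by positivity) (by positivity) h16
            _ = ((1 / 2 : ℝ) ^ (i.1 + 1)) ^ 20 := by
                rw [← pow_mul, one_div, inv_pow, show 39 + 20 * i.1 = 19 + (i.1 + 1) * 20 by ring,
                  pow_add]
                field_simp
        exact le_of_pow_le_pow_left₀ (by norm_num) (by positivity) hx
      · rw [if_neg hi, if_neg hi]
    refine (Finset.sum_le_sum fun i _ => key i).trans ?_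
    rw [Fin.sum_univ_eq_sum_range (fun i => if 2 ≤ i then (1 / 2 : ℝ) ^ (i + 1) else 0) E]
    have h3 : ∀ n : ℕ, ∑ i ∈ range n, (if 2 ≤ i then (1 / 2 : ℝ) ^ (i + 1) else 0) ≤
        1 / 4 - (if 2 ≤ n then (1 / 2 : ℝ) ^ n else 0) := by
      intro n
      induction n with
      | zero => norm_num
      | succ n ih =>
        rw [Finset.sum_range_succ]
        rcases Nat.lt_or_ge n 2 with h | h
        · interval_cases n
          · norm_num
          · simp; norm_num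
        · rw [if_pos h] at ih ⊢
          rw [if_pos (by omega : 2 ≤ n + 1)]
          have : (1 / 2 : ℝ) ^ (n + 1) = (1 / 2) ^ n / 2 := by rw [pow_succ]; ring
          rw [this]
          linarith
    refine (h3 E).trans ?_
    split_ifs
    · have : (0:ℝ) ≤ (1 / 2) ^ E := by positivity
      linarith
    · norm_num

/-- The number of bundles is small. -/
theorem sum_J_le {E : ℕ} {κ J : ℕ → ℕ} (h0 : 8 ≤ κ 0) (hs : ∀ e, κ (e + 1) = κ e ^ 2)
    {M : ℕ} (hJ : ∀ e, J e * κ e ^ 64 ≤ 2 * M) : 6 * ∑ e : Fin E, J e ≤ M := by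
  have h1 : ∀ e : ℕ, J e * 2 ^ (e + 5) ≤ M := by
    intro e
    have h2 : 2 ^ (e + 6) ≤ κ e ^ 64 := by
      calc 2 ^ (e + 6) ≤ 2 ^ (39 + 20 * e) := Nat.pow_le_pow_right (by norm_num) (by omega)
        _ ≤ κ e ^ 16 := kappa_sixteen h0 hs e
        _ ≤ κ e ^ 64 := Nat.pow_le_pow_right
            (lt_of_lt_of_le (by positivity) (kappa_ge h0 hs e)) (by norm_num)
    have h3 := Nat.mul_le_mul_left (J e) h2
    have h4 : J e * 2 ^ (e + 6) = 2 * (J e * 2 ^ (e + 5)) := by ring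
    have h5 := hJ e
    omega
  have h2 : (∑ e : Fin E, J e : ℕ) * 16 ≤ M := by
    have h3 : ∀ e : ℕ, (J e : ℝ) ≤ M / 32 * (1 / 2) ^ e := by
      intro e
      have h4 : (J e : ℝ) * 2 ^ (e + 5) ≤ M := by exact_mod_cast h1 e
      have h5 : (M : ℝ) / 32 * (1 / 2) ^ e = M / 2 ^ (e + 5) := by
        rw [pow_add, one_div, inv_pow]; field_simp; norm_num
      rw [h5, le_div_iff₀ (by positivity)]
      exact h4
    have h6 : ((∑ e : Fin E, J e : ℕ) : ℝ) * 16 ≤ M := by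
      push_cast
      rw [Fin.sum_univ_eq_sum_range (fun e => (J e : ℝ)) E]
      have h7 : ∑ e ∈ range E, (J e : ℝ) ≤ ∑ e ∈ range E, (M : ℝ) / 32 * (1 / 2) ^ e :=
        Finset.sum_le_sum fun e _ => h3 e
      rw [← Finset.mul_sum] at h7
      have h8 : ∑ k ∈ range E, ((1:ℝ) / 2) ^ k ≤ 2 := by
        have := sum_geometric_two_le E
        simpa using this
      have h9 : (0:ℝ) ≤ M / 32 := by positivity
      nlinarith [mul_le_mul_of_nonneg_left h8 h9]
    exact_mod_cast h6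
  omega

end Pool.Agent.H73.PL
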