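import Pool.Agent.H73.PL.Mom

/-!
# The peeling lemma

For all but a small fraction of the `β : Fin E → R → V` the rows can be given to the levels such
that every bundle of every level loses at most `2 q` rows.
-/

set_option autoImplicit false

namespace Pool.Agent.H73.PL

open Finset Pool.Agent.H46.SR

variable {E : ℕ} {V R : Type} [Fintype V] [Fintype R] [DecidableEq R]

open Classical in
/-- the rows of the bundle `b` -/
noncomputable def rowsB (bun : Fin E → V → Option ℕ) (β : Fin E → R → V) (b : Fin E × ℕ) :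
    Finset R := univ.filter fun ρ => Mem bun b (fun e => β e ρ)

open Classical in
/-- the indicator of a proposition -/
noncomputable def indi (p : Prop) : ℝ := if p then 1 else 0

theorem indi_nonneg (p : Prop) : 0 ≤ indi p := by unfold indi; split_ifs <;> norm_num

theorem indi_le_one (p : Prop) : indi p ≤ 1 := by unfold indi; split_ifs <;> norm_num

/-- all bundles -/
noncomputable def Uni (E : ℕ) (J : ℕ → ℕ) : Finset (Fin E × ℕ) :=
  (univ : Finset (Fin E)).biUnion fun e => (range (J e)).image fun j => (e, j)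

theorem mem_Uni (J : ℕ → ℕ) (b : Fin E × ℕ) : b ∈ Uni E J ↔ b.2 < J b.1 := by
  unfold Uni
  simp only [Finset.mem_biUnion, Finset.mem_univ, true_and, Finset.mem_image, Finset.mem_range]
  constructor
  · rintro ⟨e, j, hj, rfl⟩
    exact hj
  · intro h
    exact ⟨b.1, b.2, h, rfl⟩

theorem card_Uni_le (J : ℕ → ℕ) : (Uni E J).card ≤ ∑ e : Fin E, J e := by
  unfold Uni
  refine Finset.card_biUnion_le.trans (Finset.sum_le_sum fun e _ => ?_)
  exact Finset.card_image_le.trans (by rw [Finset.card_range])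

/-- number of members of level `e` -/
def cnt (F : Finset (Fin E × ℕ)) (e : Fin E) : ℕ := (F.filter fun b => b.1 = e).card

theorem sum_cnt (F : Finset (Fin E × ℕ)) : ∑ e, cnt F e = F.card := by
  unfold cnt
  rw [← Finset.card_eq_sum_card_fiberwise]
  intro b _
  simp

theorem cnt_le_card (F : Finset (Fin E × ℕ)) (e : Fin E) : cnt F e ≤ F.card :=
  Finset.card_le_card (Finset.filter_subset _ _)

theorem cnt_le (J : ℕ → ℕ) {F : Finset (Fin E × ℕ)} (hF : F ⊆ Uni E J) (e : Fin E) :
    cnt F e ≤ J e := by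
  have h : (F.filter fun b => b.1 = e) ⊆ (range (J e)).image fun j => (e, j) := by
    intro b hb
    rw [Finset.mem_filter] at hb
    rw [Finset.mem_image]
    have h1 := (mem_Uni J b).mp (hF hb.1)
    rw [hb.2] at h1
    exact ⟨b.2, Finset.mem_range.mpr h1, Prod.ext hb.2.symm rfl⟩
  refine (Finset.card_le_card h).trans ?_
  exact Finset.card_image_le.trans (by rw [Finset.card_range])

theorem pa_le [Nonempty V] (bun : Fin E → V → Option ℕ) (c : ℕ → ℕ)
    (hc : ∀ (e : Fin E) (j : ℕ), ∀ A : Finset V, (∀ u ∈ A, bun e u = some j) → A.card ≤ c e)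
    (F : Finset (Fin E × ℕ)) (e : Fin E) :
    pa bun F e ≤ (cnt F e : ℝ) * c e / Fintype.card V := by
  classical
  unfold pa av
  apply div_le_div_of_nonneg_right _ (Nat.cast_nonneg _)
  have h1 : ∑ u, Bi bun F e u = ((univ.filter fun u => ∃ j, bun e u = some j ∧ (e, j) ∈ F).card : ℝ) := by
    rw [Finset.card_filter]
    push_cast
    apply Finset.sum_congr rfl
    intro u _
    unfold Bi
    congr
  rw [h1]
  have h2 : (univ.filter fun u => ∃ j, bun e u = some j ∧ (e, j) ∈ F) ⊆
      (F.filter fun b => b.1 = e).biUnion fun b => univ.filter fun u => bun e u = some b.2 := by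
    intro u hu
    rw [Finset.mem_filter] at hu
    obtain ⟨-, j, hj, hF⟩ := hu
    rw [Finset.mem_biUnion]
    refine ⟨(e, j), Finset.mem_filter.mpr ⟨hF, rfl⟩, ?_⟩
    rw [Finset.mem_filter]
    exact ⟨Finset.mem_univ _, hj⟩
  have h3 : (univ.filter fun u => ∃ j, bun e u = some j ∧ (e, j) ∈ F).card ≤ cnt F e * c e := by
    refine (Finset.card_le_card h2).trans (Finset.card_biUnion_le.trans ?_)
    refine (Finset.sum_le_sum fun b _ => hc e b.2 _ fun u hu => (Finset.mem_filter.mp hu).2).trans ?_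
    rw [Finset.sum_const, smul_eq_mul]
    exact le_refl _
  exact_mod_cast h3

theorem exc_eq (bun : Fin E → V → Option ℕ) (β : Fin E → R → V) (F : Finset (Fin E × ℕ)) :
    exc (R := R) (rowsB bun β) F = ∑ ρ, (mu bun F (fun e => β e ρ) - 1) := by
  classical
  unfold exc
  apply Finset.sum_congr rfl
  intro ρ _
  congr 1
  unfold mult mu
  congr 1
  ext b
  simp [rowsB]

theorem family_moment [Nonempty V] (bun : Fin E → V → Option ℕ) (F : Finset (Fin E × ℕ)) {z : ℝ}
    (hz : 1 ≤ z) {D : ℝ}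
    (h1 : ∑ i : Fin E, (if 2 ≤ i.1 then z * pa bun F i else 0) ≤ 1 / 2)
    (h2 : ∑ p ∈ prs E, z * (pa bun F p.1 * pa bun F p.2) ≤ D) :
    av (fun β : Fin E → R → V => z ^ exc (R := R) (rowsB bun β) F) ≤
      Real.exp (2 * D * Fintype.card R) := by
  classical
  have e1 : av (fun β : Fin E → R → V => z ^ exc (R := R) (rowsB bun β) F) =
      av (fun γ : R → Fin E → V => ∏ ρ, z ^ (mu bun F (γ ρ) - 1)) := by
    have h := av_equiv (Equiv.piComm (fun (_ : Fin E) (_ : R) => V))
      (fun γ : R → Fin E → V => ∏ ρ, z ^ (mu bun F (γ ρ) - 1))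
    rw [← h]
    apply av_congr
    intro β
    rw [exc_eq, Finset.prod_pow_eq_pow_sum]
    rfl
  rw [e1, av_pi_prod (fun (_ : R) (v : Fin E → V) => z ^ (mu bun F v - 1)), Finset.prod_const,
    Finset.card_univ, mul_comm (2 * D), Real.exp_nat_mul]
  apply pow_le_pow_left₀
  · exact av_nonneg fun v => by positivity
  · exact row_moment bun F hz h1 h2

/-- bound for a fixed family -/
theorem family_bound [Nonempty V] (bun : Fin E → V → Option ℕ) (J c : ℕ → ℕ)
    (hcm : Monotone c) (hc1 : ∀ e, 1 ≤ c e)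
    (hc : ∀ (e : Fin E) (j : ℕ), ∀ A : Finset V, (∀ u ∈ A, bun e u = some j) → A.card ≤ c e)
    (hR : Fintype.card R ≤ Fintype.card V) (q : ℕ)
    {F : Finset (Fin E × ℕ)} (hF : F ⊆ Uni E J) (hne : F.Nonempty) {z : ℝ} (hz : 1 ≤ z)
    (hzq : ((Fintype.card V : ℝ) / F.card) ^ 4 ≤ z ^ q)
    (hT : ∑ i : Fin E, (if 2 ≤ i.1 then
      z * ((min (J i) F.card : ℕ) * c i / Fintype.card V) * c (i - 2) else 0) ≤ 1 / 4) :
    av (fun β : Fin E → R → V => indi (q * F.card < exc (R := R) (rowsB bun β) F)) ≤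
      (2 * ((F.card : ℝ) / Fintype.card V) ^ 4) ^ F.card := by
  classical
  have hz0 : 0 ≤ z := by linarith
  set M : ℝ := ((Fintype.card V : ℕ) : ℝ) with hM
  have hM0 : 0 < M := by rw [hM]; exact_mod_cast Fintype.card_pos
  set f : ℝ := ((F.card : ℕ) : ℝ) with hf
  have hf0 : 0 < f := by rw [hf]; exact_mod_cast Finset.card_pos.mpr hne
  have hpa : ∀ i, pa bun F i ≤ (min (J i) F.card : ℕ) * c i / M := by
    intro i
    refine (pa_le bun c hc F i).trans ?_
    apply div_le_div_of_nonneg_right _ hM0.le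
    apply mul_le_mul_of_nonneg_right _ (Nat.cast_nonneg _)
    exact_mod_cast le_min (cnt_le J hF i) (cnt_le_card F i)
  have h1 : ∑ i : Fin E, (if 2 ≤ i.1 then z * pa bun F i else 0) ≤ 1 / 2 := by
    refine (Finset.sum_le_sum fun i _ => ?_).trans (hT.trans (by norm_num))
    split_ifs with h
    · have g1 : (1:ℝ) ≤ c (i - 2) := by exact_mod_cast hc1 _
      have g2 : 0 ≤ z * ((min (J i) F.card : ℕ) * c i / M) := by positivity
      calc z * pa bun F i ≤ z * ((min (J i) F.card : ℕ) * c i / M) :=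
            mul_le_mul_of_nonneg_left (hpa i) hz0
        _ ≤ z * ((min (J i) F.card : ℕ) * c i / M) * c (i - 2) := le_mul_of_one_le_right g2 g1
    · exact le_refl _
  have h2 : ∑ p ∈ prs E, z * (pa bun F p.1 * pa bun F p.2) ≤ f / M / 4 := by
    have h3 : ∑ p ∈ prs E, z * (pa bun F p.1 * pa bun F p.2) =
        ∑ i : Fin E, ∑ e : Fin E, if e.1 + 2 ≤ i.1 then z * (pa bun F e * pa bun F i) else 0 := by
      rw [prs, Finset.sum_filter, ← Finset.univ_product_univ, Finset.sum_product_right]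
    rw [h3]
    have h4 : ∀ i : Fin E, ∑ e : Fin E, (if e.1 + 2 ≤ i.1 then z * (pa bun F e * pa bun F i) else 0)
        ≤ (if 2 ≤ i.1 then z * ((min (J i) F.card : ℕ) * c i / M) * c (i - 2) else 0) * (f / M) := by
      intro i
      by_cases hi : 2 ≤ i.1
      · rw [if_pos hi]
        have h5 : ∀ e : Fin E, (if e.1 + 2 ≤ i.1 then z * (pa bun F e * pa bun F i) else 0)
            ≤ z * ((min (J i) F.card : ℕ) * c i / M) * c (i - 2) / M * cnt F e := by
          intro e
          split_ifs with h6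
          · have g1 : pa bun F e ≤ (cnt F e : ℝ) * c (i - 2) / M := by
              refine (pa_le bun c hc F e).trans ?_
              apply div_le_div_of_nonneg_right _ hM0.le
              apply mul_le_mul_of_nonneg_left _ (Nat.cast_nonneg _)
              exact_mod_cast hcm (by omega)
            have g2 := mul_le_mul g1 (hpa i) (pa_nonneg _ _ _) (by positivity)
            calc z * (pa bun F e * pa bun F i)
                ≤ z * ((cnt F e : ℝ) * c (i - 2) / M * ((min (J i) F.card : ℕ) * c i / M)) :=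
                  mul_le_mul_of_nonneg_left g2 hz0
              _ = _ := by ring
          · positivity
        refine (Finset.sum_le_sum fun e _ => h5 e).trans (le_of_eq ?_)
        rw [← Finset.mul_sum]
        have h7 : ∑ e, (cnt F e : ℝ) = f := by
          rw [hf, ← sum_cnt F]; push_cast; rfl
        rw [h7]
        ring
      · rw [if_neg hi, zero_mul]
        apply le_of_eq
        apply Finset.sum_eq_zero
        intro e _
        rw [if_neg (by omega)]
    refine (Finset.sum_le_sum fun i _ => h4 i).trans ?_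
    rw [← Finset.sum_mul]
    have : 0 ≤ f / M := by positivity
    have := mul_le_mul_of_nonneg_right hT this
    linarith
  have hmom := family_moment (R := R) bun F hz h1 h2
  have hmom2 : av (fun β : Fin E → R → V => z ^ exc (R := R) (rowsB bun β) F) ≤ 2 ^ F.card := by
    refine hmom.trans ?_
    have g1 : 2 * (f / M / 4) * (Fintype.card R : ℝ) ≤ (F.card : ℝ) * (1 / 2) := by
      have : (Fintype.card R : ℝ) ≤ M := by rw [hM]; exact_mod_cast hR
      calc 2 * (f / M / 4) * (Fintype.card R : ℝ) ≤ 2 * (f / M / 4) * M :=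
            mul_le_mul_of_nonneg_left this (by positivity)
        _ = _ := by field_simp; ring
    refine (Real.exp_le_exp.mpr g1).trans ?_
    rw [Real.exp_nat_mul]
    apply pow_le_pow_left₀ (Real.exp_pos _).le
    have h3 : Real.exp (1 / 2) ^ 2 ≤ 2 ^ 2 := by
      rw [← Real.exp_nat_mul]
      have : ((2 : ℕ) : ℝ) * (1 / 2) = 1 := by norm_num
      rw [this]
      linarith [Real.exp_one_lt_d9]
    exact le_of_sq_le_sq h3 (by norm_num)
  -- Markov
  have hzp : 0 < z ^ (q * F.card) := pow_pos (by linarith) _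
  have hmk : av (fun β : Fin E → R → V => indi (q * F.card < exc (R := R) (rowsB bun β) F)) *
      z ^ (q * F.card) ≤ 2 ^ F.card := by
    rw [← av_mul_right]
    refine (av_mono fun β => ?_).trans hmom2
    unfold indi
    split_ifs with h
    · rw [one_mul]
      exact pow_le_pow_right₀ hz h.le
    · rw [zero_mul]; positivity
  have hw : (M / f) ^ (4 * F.card) ≤ z ^ (q * F.card) := by
    rw [pow_mul, pow_mul]
    exact pow_le_pow_left₀ (by positivity) hzq _
  have hpos : 0 < (M / f) ^ (4 * F.card) := by positivity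
  have hav : 0 ≤ av (fun β : Fin E → R → V => indi (q * F.card < exc (R := R) (rowsB bun β) F)) :=
    av_nonneg fun β => indi_nonneg _
  have h8 := mul_le_mul_of_nonneg_left hw hav
  have h9 : av (fun β : Fin E → R → V => indi (q * F.card < exc (R := R) (rowsB bun β) F)) ≤
      2 ^ F.card / (M / f) ^ (4 * F.card) := by
    rw [le_div_iff₀ hpos]
    exact h8.trans hmk
  refine h9.trans (le_of_eq ?_)
  rw [mul_pow, ← pow_mul, div_pow, div_pow]
  field_simp

/-- the bound for all families together -/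
theorem peel [Nonempty V] (bun : Fin E → V → Option ℕ) (J c : ℕ → ℕ)
    (hcm : Monotone c) (hc1 : ∀ e, 1 ≤ c e)
    (hc : ∀ (e : Fin E) (j : ℕ), ∀ A : Finset V, (∀ u ∈ A, bun e u = some j) → A.card ≤ c e)
    (hR : Fintype.card R ≤ Fintype.card V) (q : ℕ)
    (hN : 6 * ∑ e : Fin E, J e ≤ Fintype.card V)
    (hz : ∀ f : ℕ, 1 ≤ f → f ≤ ∑ e : Fin E, J e → ∃ z : ℝ, 1 ≤ z ∧
      ((Fintype.card V : ℝ) / f) ^ 4 ≤ z ^ q ∧
      ∑ i : Fin E, (if 2 ≤ i.1 then
        z * ((min (J i) f : ℕ) * c i / Fintype.card V) * c (i - 2) else 0) ≤ 1 / 4) :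
    av (fun β : Fin E → R → V => indi (¬ ∃ t : R → Option (Fin E × ℕ), ∀ b ∈ Uni E J,
      ∀ A : Finset R, (∀ ρ ∈ A, Mem bun b (fun e => β e ρ) ∧ t ρ ≠ some b) → A.card ≤ 2 * q)) ≤
      2 / (Fintype.card V : ℝ) ^ 3 := by
  classical
  set M : ℝ := ((Fintype.card V : ℕ) : ℝ) with hM
  have hM0 : 0 < M := by rw [hM]; exact_mod_cast Fintype.card_pos
  set N := (Uni E J).card with hNd
  have hNle : N ≤ ∑ e : Fin E, J e := card_Uni_le J
  have hN6 : 6 * (N : ℝ) ≤ M := by
    rw [hM]
    exact_mod_cast (Nat.mul_le_mul_left 6 hNle).trans hN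
  -- union bound
  have h1 : ∀ β : Fin E → R → V, indi (¬ ∃ t : R → Option (Fin E × ℕ), ∀ b ∈ Uni E J,
      ∀ A : Finset R, (∀ ρ ∈ A, Mem bun b (fun e => β e ρ) ∧ t ρ ≠ some b) → A.card ≤ 2 * q) ≤
      ∑ F ∈ (Uni E J).powerset.filter (fun F => F.Nonempty),
        indi (q * F.card < exc (R := R) (rowsB bun β) F) := by
    intro β
    have hnn : ∀ F ∈ (Uni E J).powerset.filter (fun F => F.Nonempty),
        0 ≤ indi (q * F.card < exc (R := R) (rowsB bun β) F) := fun F _ => indi_nonneg _
    by_cases h : ∀ G : Finset (Fin E × ℕ), G ⊆ Uni E J → G.Nonempty →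
        exc (R := R) (rowsB bun β) G ≤ q * G.card
    · obtain ⟨t, ht⟩ := assign (R := R) (rowsB bun β) q (Uni E J) h
      have : indi (¬ ∃ t : R → Option (Fin E × ℕ), ∀ b ∈ Uni E J,
          ∀ A : Finset R, (∀ ρ ∈ A, Mem bun b (fun e => β e ρ) ∧ t ρ ≠ some b) →
            A.card ≤ 2 * q) = 0 := by
        unfold indi
        rw [if_neg]
        rw [not_not]
        refine ⟨t, fun b hb A hA => ?_⟩
        refine (Finset.card_le_card ?_).trans (ht b hb)
        intro ρ hρ
        rw [Finset.mem_filter, rowsB, Finset.mem_filter]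
        exact ⟨⟨Finset.mem_univ _, (hA ρ hρ).1⟩, (hA ρ hρ).2⟩
      rw [this]
      exact Finset.sum_nonneg hnn
    · push Not at h
      obtain ⟨G, hG, hGne, hGe⟩ := h
      refine (indi_le_one _).trans ?_
      have h2 : (1:ℝ) = indi (q * G.card < exc (R := R) (rowsB bun β) G) := by
        unfold indi; rw [if_pos hGe]
      rw [h2]
      exact Finset.single_le_sum
        (f := fun F : Finset (Fin E × ℕ) => indi (q * F.card < exc (R := R) (rowsB bun β) F)) hnn
        (Finset.mem_filter.mpr ⟨Finset.mem_powerset.mpr hG, hGne⟩)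
  refine (av_mono h1).trans ?_
  rw [av_sum]
  have h2 : ∀ F ∈ (Uni E J).powerset.filter (fun F => F.Nonempty),
      av (fun β : Fin E → R → V => indi (q * F.card < exc (R := R) (rowsB bun β) F)) ≤
        (2 * ((F.card : ℝ) / M) ^ 4) ^ F.card := by
    intro F hF
    rw [Finset.mem_filter, Finset.mem_powerset] at hF
    have hcard : F.card ≤ ∑ e : Fin E, J e := (Finset.card_le_card hF.1).trans hNle
    obtain ⟨z, hz1, hzq, hT⟩ := hz F.card (Finset.card_pos.mpr hF.2) hcard
    exact family_bound bun J c hcm hc1 hc hR q hF.1 hF.2 hz1 hzq hT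
  refine (Finset.sum_le_sum h2).trans ?_
  -- sum over the sizes
  have h3 : ∑ F ∈ (Uni E J).powerset.filter (fun F => F.Nonempty),
      (2 * ((F.card : ℝ) / M) ^ 4) ^ F.card =
      ∑ k ∈ range N, (N.choose (k + 1) : ℝ) * (2 * (((k + 1 : ℕ) : ℝ) / M) ^ 4) ^ (k + 1) := by
    have h4 : ∑ F ∈ (Uni E J).powerset.filter (fun F => F.Nonempty),
        (2 * ((F.card : ℝ) / M) ^ 4) ^ F.card =
        ∑ F ∈ (Uni E J).powerset, (if F.card = 0 then 0 else (2 * ((F.card : ℝ) / M) ^ 4) ^ F.card) := by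
      rw [Finset.sum_filter]
      apply Finset.sum_congr rfl
      intro F _
      by_cases hF : F.Nonempty
      · have : F.card ≠ 0 := (Finset.card_pos.mpr hF).ne'
        rw [if_pos hF, if_neg this]
      · rw [if_neg hF, if_pos]
        rw [Finset.not_nonempty_iff_eq_empty] at hF
        rw [hF, Finset.card_empty]
    rw [h4, Finset.sum_powerset_apply_card
      (fun k => if k = 0 then (0:ℝ) else (2 * ((k : ℝ) / M) ^ 4) ^ k), ← hNd,
      Finset.sum_range_succ']
    simp only [Nat.add_eq_zero_iff, one_ne_zero, and_false, if_false, if_true, smul_zero, add_zero,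
      nsmul_eq_mul]
  rw [h3]
  have h5 : ∀ k ∈ range N,
      (N.choose (k + 1) : ℝ) * (2 * (((k + 1 : ℕ) : ℝ) / M) ^ 4) ^ (k + 1) ≤
        1 / M ^ 3 * (1 / 2) ^ k := by
    intro k hk
    rw [Finset.mem_range] at hk
    set f : ℕ := k + 1 with hfd
    have hf0 : (0:ℝ) < (f : ℝ) := by rw [hfd]; positivity
    have hfN : (f : ℝ) ≤ N := by exact_mod_cast hk
    have hch : (N.choose f : ℝ) ≤ (3 * N / f) ^ f := by
      have g1 : (N.choose f : ℝ) ≤ (N : ℝ) ^ f / (f.factorial : ℝ) := Nat.choose_le_pow_div f N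
      have g2 : (f : ℝ) ^ f ≤ 3 ^ f * (f.factorial : ℝ) := by
        have g4 : Real.exp (f : ℝ) ≤ 3 ^ f := by
          have : Real.exp (f : ℝ) = Real.exp 1 ^ f := by rw [← Real.exp_nat_mul, mul_one]
          rw [this]
          exact pow_le_pow_left₀ (Real.exp_pos _).le (by linarith [Real.exp_one_lt_d9]) _
        have g5 : (f : ℝ) ^ f / (f.factorial : ℝ) ≤ Real.exp (f : ℝ) :=
          Real.pow_div_factorial_le_exp _ hf0.le _
        have g6 : (0:ℝ) < (f.factorial : ℝ) := by exact_mod_cast Nat.factorial_pos f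
        rw [div_le_iff₀ g6] at g5
        exact g5.trans (mul_le_mul_of_nonneg_right g4 g6.le)
      have g6 : (0:ℝ) < (f.factorial : ℝ) := by exact_mod_cast Nat.factorial_pos f
      refine g1.trans ?_
      rw [div_pow, mul_pow, div_le_div_iff₀ g6 (pow_pos hf0 _)]
      calc (N : ℝ) ^ f * (f : ℝ) ^ f ≤ (N : ℝ) ^ f * (3 ^ f * (f.factorial : ℝ)) :=
            mul_le_mul_of_nonneg_left g2 (by positivity)
        _ = _ := by ring
    have hs : (3 * N / f : ℝ) * (2 * ((f : ℝ) / M) ^ 4) ≤ ((f : ℝ) / M) ^ 3 := by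
      have : (3 * N / f : ℝ) * (2 * ((f : ℝ) / M) ^ 4) = (6 * N / M) * ((f : ℝ) / M) ^ 3 := by
        field_simp
        ring
      rw [this]
      have g7 : 6 * (N : ℝ) / M ≤ 1 := by rw [div_le_one hM0]; exact hN6
      exact mul_le_of_le_one_left (by positivity) g7
    have h6 : (N.choose f : ℝ) * (2 * ((f : ℝ) / M) ^ 4) ^ f ≤ (((f : ℝ) / M) ^ 3) ^ f := by
      calc (N.choose f : ℝ) * (2 * ((f : ℝ) / M) ^ 4) ^ f
          ≤ (3 * N / f) ^ f * (2 * ((f : ℝ) / M) ^ 4) ^ f :=
            mul_le_mul_of_nonneg_right hch (by positivity)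
        _ = ((3 * N / f) * (2 * ((f : ℝ) / M) ^ 4)) ^ f := (mul_pow _ _ _).symm
        _ ≤ _ := pow_le_pow_left₀ (by positivity) hs _
    refine h6.trans ?_
    have hx : ((f : ℝ) / M) ^ 3 ≤ 1 / 216 := by
      have g8 : (f : ℝ) / M ≤ 1 / 6 := by
        rw [div_le_iff₀ hM0]; linarith
      calc ((f : ℝ) / M) ^ 3 ≤ (1 / 6) ^ 3 := pow_le_pow_left₀ (by positivity) g8 _
        _ = _ := by norm_num
    have hf3 : (f : ℝ) ^ 3 ≤ 8 ^ k := by
      have : f ^ 3 ≤ 8 ^ k := by
        rw [hfd]
        have h8 : (8:ℕ) ^ k = (2 ^ k) ^ 3 := by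
          rw [← pow_mul, mul_comm, pow_mul]; norm_num
        rw [h8]
        exact Nat.pow_le_pow_left (Nat.lt_two_pow_self) 3
      exact_mod_cast this
    rw [hfd, pow_succ, ← hfd]
    calc (((f : ℝ) / M) ^ 3) ^ k * ((f : ℝ) / M) ^ 3
        ≤ (1 / 216) ^ k * ((f : ℝ) ^ 3 / M ^ 3) := by
          rw [div_pow (f : ℝ) M 3]
          apply mul_le_mul_of_nonneg_right _ (by positivity)
          apply pow_le_pow_left₀ (by positivity)
          rw [← div_pow]; exact hx
      _ ≤ (1 / 216) ^ k * (8 ^ k / M ^ 3) := by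
          apply mul_le_mul_of_nonneg_left _ (by positivity)
          exact div_le_div_of_nonneg_right hf3 (by positivity)
      _ = 1 / M ^ 3 * (8 / 216) ^ k := by
          rw [div_pow, div_pow, one_pow]; ring
      _ ≤ 1 / M ^ 3 * (1 / 2) ^ k := by
          apply mul_le_mul_of_nonneg_left _ (by positivity)
          exact pow_le_pow_left₀ (by norm_num) (by norm_num) _
  refine (Finset.sum_le_sum h5).trans ?_
  rw [← Finset.mul_sum]
  have h7 : ∑ k ∈ range N, ((1:ℝ) / 2) ^ k ≤ 2 := by
    have := sum_geometric_two_le N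
    simpa using this
  calc 1 / M ^ 3 * ∑ k ∈ range N, ((1:ℝ) / 2) ^ k ≤ 1 / M ^ 3 * 2 :=
        mul_le_mul_of_nonneg_left h7 (by positivity)
    _ = 2 / M ^ 3 := by ring

end Pool.Agent.H73.PL
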